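import Pool.Agent.V1157.SS.Rep
import Pool.Agent.V1157.BD.Main

/-!
# Bounded radicals vanish
-/

open CategoryTheory AlgebraicGeometry

universe u v w x

namespace Pool.Agent.V1157.SS.Aux

open Pool.Agent.H914 Pool.Agent.H914.VarClass Pool.Agent.H914.VarClass.Obj Pool.Agent.W492.BB
  Pool.Agent.W550.Corr Pool.Agent.TH133 Pool.Agent.Y148.BB Pool.Agent.V1157.BD

set_option linter.unusedSectionVars false

section rep

variable {K : Type*} [Field K] {G : Type*} [Group G] {V W : Type*} [AddCommGroup V] [Module K V]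
  [AddCommGroup W] [Module K W] {ρ : Representation K G V} {τ : Representation K G W}

lemma mem_radical {t : V} : t ∈ radical ρ ↔ ∀ σ : Subrepresentation ρ, IsCoatom σ → t ∈ σ := by
  rw [radical, Submodule.mem_sInf]
  constructor
  · intro h σ hσ
    exact h _ ⟨σ, hσ, rfl⟩
  · rintro h _ ⟨σ, hσ, rfl⟩
    exact h σ hσ

/-- The preimage of a subrepresentation. -/
def comap (φ : V →ₗ[K] W) (hφ : ∀ g t, φ (ρ g t) = τ g (φ t)) (σ : Subrepresentation τ) :
    Subrepresentation ρ where
  toSubmodule := σ.toSubmodule.comap φ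
  apply_mem_toSubmodule g t ht := by
    rw [Submodule.mem_comap, hφ]
    exact σ.apply_mem_toSubmodule g ht

/-- The image of a subrepresentation. -/
def map (φ : V →ₗ[K] W) (hφ : ∀ g t, φ (ρ g t) = τ g (φ t)) (σ : Subrepresentation ρ) :
    Subrepresentation τ where
  toSubmodule := σ.toSubmodule.map φ
  apply_mem_toSubmodule g t ht := by
    obtain ⟨s, hs, rfl⟩ := ht
    exact ⟨ρ g s, σ.apply_mem_toSubmodule g hs, hφ g s⟩

lemma isCoatom_comap (φ : V →ₗ[K] W) (hφ : ∀ g t, φ (ρ g t) = τ g (φ t))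
    {σ : Subrepresentation τ} (hσ : IsCoatom σ) (hne : comap φ hφ σ ≠ ⊤) :
    IsCoatom (comap φ hφ σ) := by
  refine ⟨hne, fun υ hυ => ?_⟩
  have h1 : σ < σ ⊔ map φ hφ υ := by
    refine lt_of_le_of_ne le_sup_left fun h => ?_
    apply hυ.not_ge
    intro s hs
    have h2 : φ s ∈ σ ⊔ map φ hφ υ :=
      (le_sup_right : map φ hφ υ ≤ σ ⊔ map φ hφ υ) ⟨s, hs, rfl⟩
    rw [← h] at h2
    exact h2
  have h2 := hσ.2 _ h1
  rw [eq_top_iff]
  intro s _
  have h3 : φ s ∈ (σ ⊔ map φ hφ υ : Subrepresentation τ) := by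
    rw [h2]
    exact Submodule.mem_top
  obtain ⟨a, ha, b, ⟨m, hm, rfl⟩, hab⟩ := Submodule.mem_sup.1 h3
  have h4 : s - m ∈ comap φ hφ σ := by
    change φ (s - m) ∈ σ
    rw [map_sub, ← hab, add_sub_cancel_right]
    exact ha
  have h5 : s - m ∈ υ := hυ.le h4
  have h6 := υ.toSubmodule.add_mem h5 hm
  rwa [sub_add_cancel] at h6

lemma map_radical (φ : V →ₗ[K] W) (hφ : ∀ g t, φ (ρ g t) = τ g (φ t)) {t : V}
    (ht : t ∈ radical ρ) : φ t ∈ radical τ := by
  rw [mem_radical] at ht ⊢
  intro σ hσ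
  by_cases h : comap φ hφ σ = ⊤
  · have h1 : t ∈ comap φ hφ σ := by
      rw [h]
      exact Submodule.mem_top
    exact h1
  · exact ht _ (isCoatom_comap φ hφ hσ h)

/-- Equivariant maps with values in invariants vanish on the radical. -/
lemma eq_zero_of_invariant (φ : V →ₗ[K] W) (hφ : ∀ g t, φ (ρ g t) = φ t) {t : V}
    (ht : t ∈ radical ρ) : φ t = 0 := by
  rw [← Module.forall_dual_apply_eq_zero_iff K]
  intro l
  by_contra hl
  let σ : Subrepresentation ρ :=
    { toSubmodule := LinearMap.ker (l ∘ₗ φ)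
      apply_mem_toSubmodule := by
        intro g s hs
        rw [LinearMap.mem_ker, LinearMap.comp_apply] at hs ⊢
        rw [hφ, hs] }
  have hmem : ∀ s, s ∈ σ ↔ l (φ s) = 0 := fun s => Iff.rfl
  have hσ : IsCoatom σ := by
    refine ⟨fun h => ?_, fun υ hυ => ?_⟩
    · apply hl
      rw [← hmem, h]
      exact Submodule.mem_top
    · obtain ⟨m, hm, hmσ⟩ := SetLike.exists_of_lt hυ
      rw [hmem] at hmσ
      rw [eq_top_iff]
      intro s _
      have h4 : s - (l (φ s) * (l (φ m))⁻¹) • m ∈ σ := by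
        rw [hmem, map_sub, map_sub, map_smul, map_smul, smul_eq_mul,
          inv_mul_cancel_right₀ hmσ, sub_self]
      have h6 := υ.toSubmodule.add_mem (hυ.le h4)
        (υ.toSubmodule.smul_mem (l (φ s) * (l (φ m))⁻¹) hm)
      rwa [sub_add_cancel] at h6
  exact hl ((hmem t).1 ((mem_radical.1 ht) σ hσ))

/-- A finite dimensional representation is semisimple if and only if its radical is zero. -/
lemma semisimple_iff [Module.Finite K V] :
    ρ.IsSemisimpleRepresentation ↔ radical ρ = ⊥ := by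
  rw [Representation.isSemisimpleRepresentation_iff_isSemisimpleModule_asModule]
  have h0 : IsArtinian K ρ.asModule := inferInstance
  have h1 : IsArtinian (MonoidAlgebra K G) ρ.asModule := isArtinian_of_tower K h0
  rw [IsArtinian.isSemisimpleModule_iff_jacobson (MonoidAlgebra K G) ρ.asModule]
  have key : ∀ t : V, t ∈ radical ρ ↔
      (show ρ.asModule from t) ∈ Module.jacobson (MonoidAlgebra K G) ρ.asModule := by
    intro t
    rw [mem_radical, Module.jacobson, Submodule.mem_sInf]
    constructor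
    · intro h m hm
      have h2 := h (Subrepresentation.subrepresentationSubmoduleOrderIso.symm m)
        ((OrderIso.isCoatom_iff _ _).2 hm)
      exact h2
    · intro h σ hσ
      have h2 := h (Subrepresentation.subrepresentationSubmoduleOrderIso σ)
        ((OrderIso.isCoatom_iff _ _).2 hσ)
      exact h2
  rw [Submodule.eq_bot_iff, Submodule.eq_bot_iff]
  constructor
  · intro h t ht
    exact h t ((key t).1 ht)
  · intro h t ht
    exact h t ((key t).2 ht)

/-- A family of equivariant maps bounds the number of generators from below. -/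
lemma card_le [Module.Finite K W] {N D : ℕ} (Φ : Fin N → V →ₗ[K] W)
    (hΦ : ∀ i g s, Φ i (ρ g s) = τ g (Φ i s)) (A : Submodule K V) (B : Submodule K W)
    (hA : ∀ i, ∀ s ∈ A, Φ i s ∈ B) (x : Fin D → V) (s : Fin N → V)
    (hs : ∀ i, s i ∈ A ⊔ Submodule.span K {y | ∃ (g : G) (l : Fin D), y = ρ g (x l)}) {t : W}
    (ht : t ∉ B) {κ : K} (hκ : κ ≠ 0) (h1 : ∀ i, Φ i (s i) = κ • t)
    (h2 : ∀ i j, i ≠ j → Φ i (s j) ∈ B) : N ≤ D * Module.finrank K (W →ₗ[K] W) := by
  classical
  let Ψ : (Fin D → (W →ₗ[K] W)) →ₗ[K] (Fin N → W ⧸ B) :=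
    LinearMap.pi fun i => B.mkQ.comp (∑ l, (LinearMap.applyₗ (Φ i (x l))).comp (LinearMap.proj l))
  have hΨ : ∀ e i, Ψ e i = B.mkQ (∑ l, e l (Φ i (x l))) := by
    intro e i
    simp [Ψ]
  have hr : ∀ y ∈ A ⊔ Submodule.span K {y | ∃ (g : G) (l : Fin D), y = ρ g (x l)},
      (fun i => B.mkQ (Φ i y)) ∈ LinearMap.range Ψ := by
    intro y hy
    obtain ⟨a, ha, b, hb, rfl⟩ := Submodule.mem_sup.1 hy
    have e0 : (fun i => B.mkQ (Φ i (a + b))) = fun i => B.mkQ (Φ i b) := by
      funext i
      rw [map_add, map_add]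
      have : B.mkQ (Φ i a) = 0 := (Submodule.Quotient.mk_eq_zero B).2 (hA i a ha)
      rw [this, zero_add]
    rw [e0]
    induction hb using Submodule.span_induction with
    | mem b hb =>
      obtain ⟨g, l, rfl⟩ := hb
      refine ⟨Pi.single l (τ g), ?_⟩
      funext i
      rw [hΨ, hΦ, Finset.sum_eq_single l]
      · rw [Pi.single_eq_same]
      · intro m _ hm
        rw [Pi.single_eq_of_ne hm, LinearMap.zero_apply]
      · intro h
        exact absurd (Finset.mem_univ l) h
    | zero =>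
      refine ⟨0, ?_⟩
      funext i
      rw [map_zero, map_zero, map_zero]
      rfl
    | add b b' hb hb' ih ih' =>
      have h3 := Submodule.add_mem _
        (ih (Submodule.add_mem_sup ha hb) (by funext i; rw [map_add, map_add,
          show B.mkQ (Φ i a) = 0 from (Submodule.Quotient.mk_eq_zero B).2 (hA i a ha), zero_add]))
        (ih' (Submodule.add_mem_sup ha hb') (by funext i; rw [map_add, map_add,
          show B.mkQ (Φ i a) = 0 from (Submodule.Quotient.mk_eq_zero B).2 (hA i a ha), zero_add]))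
      convert h3 using 1
      funext i
      rw [map_add, map_add]
      rfl
    | smul c b hb ih =>
      have h3 := Submodule.smul_mem _ c
        (ih (Submodule.add_mem_sup ha hb) (by funext i; rw [map_add, map_add,
          show B.mkQ (Φ i a) = 0 from (Submodule.Quotient.mk_eq_zero B).2 (hA i a ha), zero_add]))
      convert h3 using 1
      funext i
      rw [map_smul, map_smul]
      rfl
  choose e he using fun j => hr (s j) (hs j)
  have hli : LinearIndependent K e := by
    apply LinearIndependent.of_comp Ψ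
    rw [Fintype.linearIndependent_iff]
    intro c hc j
    have h3 := congrFun hc j
    rw [Finset.sum_apply, Finset.sum_eq_single j] at h3
    · rw [Function.comp_apply, Pi.smul_apply, he j, Pi.zero_apply] at h3
      beta_reduce at h3
      rw [h1 j, map_smul, smul_smul] at h3
      rcases smul_eq_zero.1 h3 with h4 | h4
      · exact (mul_eq_zero.1 h4).resolve_right hκ
      · exact absurd ((Submodule.Quotient.mk_eq_zero B).1 h4) ht
    · intro i _ hi
      rw [Function.comp_apply, Pi.smul_apply, he i]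
      beta_reduce
      have : B.mkQ (Φ j (s i)) = 0 := (Submodule.Quotient.mk_eq_zero B).2 (h2 j i hi.symm)
      rw [this, smul_zero]
    · intro h3
      exact absurd (Finset.mem_univ j) h3
  have h3 := hli.fintype_card_le_finrank
  rwa [Fintype.card_fin, Module.finrank_pi_fintype, Finset.sum_const, Finset.card_univ,
    Fintype.card_fin, smul_eq_mul] at h3

end rep

section main

variable {k : Type u} [Field k] {𝒱 : VarClass k} {C : TheoryData.{u, v, 0} 𝒱 ℚ}
  [hC : IsChowProj C] {K : Type w} [Field K] {H : WeilTheoryData.{u, v, w} C K}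
  [hH : IsWeilProj H] {S V X Y : 𝒱.Obj} {n r : ℕ} {G : Type x} [Group G] {R : GaloisData G H}

/-- Pull-back between varieties of dimension `n`. -/
noncomputable def pl (H : WeilTheoryData.{u, v, w} C K) [IsWeilProj H] (f : X ⟶ Y) (r : ℕ) :
    H.gr Y (2 * r) →ₗ[K] H.gr X (2 * r) :=
  ((H.pull f).toLinearMap.comp (H.gr Y (2 * r)).subtype).codRestrict _ fun t =>
    H.pull_mem f t.2

lemma coe_pl (f : X ⟶ Y) (t : H.gr Y (2 * r)) : ((pl H f r t : H.gr X (2 * r)) : H.A X) =
    H.pull f t := rfl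

lemma push_deg (hX : X.dim = n) (hY : Y.dim = n) (f : X ⟶ Y) {t : H.A X}
    (ht : t ∈ H.gr X (2 * r)) : H.push f t ∈ H.gr Y (2 * r) := by
  have h1 := H.push_mem f ht
  have h2 : (2 * (r : ℤ)) + 2 * ((Y.dim : ℤ) - X.dim) = 2 * r := by rw [hX, hY]; ring
  rwa [h2] at h1

/-- Push-forward between varieties of dimension `n`. -/
noncomputable def ps (H : WeilTheoryData.{u, v, w} C K) [IsWeilProj H] (hX : X.dim = n)
    (hY : Y.dim = n) (f : X ⟶ Y) (r : ℕ) : H.gr X (2 * r) →ₗ[K] H.gr Y (2 * r) :=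
  ((H.push f).comp (H.gr X (2 * r)).subtype).codRestrict _ fun t => push_deg hX hY f t.2

lemma coe_ps (hX : X.dim = n) (hY : Y.dim = n) (f : X ⟶ Y) (t : H.gr X (2 * r)) :
    ((ps H hX hY f r t : H.gr Y (2 * r)) : H.A Y) = H.push f t := rfl

lemma pl_rep (hR : IsGalois R) (f : X ⟶ Y) (g : G) (t : H.gr Y (2 * r)) :
    pl H f r (R.rep Y r g t) = R.rep X r g (pl H f r t) := by
  apply Subtype.ext
  exact (hR.pull X Y f r g t (pl H f r t) rfl).symm

lemma ps_rep (hR : IsGalois R) (hX : X.dim = n) (hY : Y.dim = n) (f : X ⟶ Y) (g : G)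
    (t : H.gr X (2 * r)) : ps H hX hY f r (R.rep X r g t) = R.rep Y r g (ps H hX hY f r t) := by
  apply Subtype.ext
  exact (hR.push X Y f r r g t (ps H hX hY f r t) (by rw [hX, hY]) rfl).symm

/-- Algebraic classes are invariant. -/
lemma rep_alg (hR : IsGalois R) (g : G) {t : H.gr X (2 * r)} (ht : IsAlg H r (t : H.A X)) :
    R.rep X r g t = t := by
  have key : ∀ s : H.A X, IsAlg H r s → ∀ t : H.gr X (2 * r), (t : H.A X) = s →
      R.rep X r g t = t := by
    intro s hs
    induction hs using Submodule.span_induction with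
    | mem s hs =>
      obtain ⟨z, hz, rfl⟩ := hs
      intro t ht
      exact Subtype.ext (hR.cl X r g z t hz ht)
    | zero =>
      intro t ht
      have : t = 0 := Subtype.ext ht
      rw [this, map_zero]
    | add a b ha hb iha ihb =>
      intro t ht
      have mem : ∀ c : H.A X, IsAlg H r c → c ∈ H.gr X (2 * r) := by
        intro c hc
        refine (Submodule.span_le.2 ?_) hc
        rintro _ ⟨z, hz, rfl⟩
        exact H.cl_mem hz
      have h1 := iha ⟨a, mem a ha⟩ rfl
      have h2 := ihb ⟨b, mem b hb⟩ rfl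
      have h3 : t = ⟨a, mem a ha⟩ + ⟨b, mem b hb⟩ := Subtype.ext ht
      rw [h3, map_add, h1, h2]
    | smul c a ha iha =>
      intro t ht
      have mem : ∀ c : H.A X, IsAlg H r c → c ∈ H.gr X (2 * r) := by
        intro c hc
        refine (Submodule.span_le.2 ?_) hc
        rintro _ ⟨z, hz, rfl⟩
        exact H.cl_mem hz
      have h1 := iha ⟨a, mem a ha⟩ rfl
      have h3 : t = c • ⟨a, mem a ha⟩ := Subtype.ext ht
      rw [h3, map_smul, h1]
  exact key _ ht t rfl

lemma ps_pl_ne (hR : IsGalois R) {N : ℕ} {p : ℕ → (V ⟶ S)} {a : C.A S} {b κ : ℚ}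
    (h : Pw C n N p a b κ) {i j : ℕ} (hi : i < N) (hj : j < N) (hij : i ≠ j)
    (t : H.gr S (2 * r)) :
    IsAlg H r ((ps H h.dimV h.dimS (p j) r (pl H (p i) r t) : H.gr S (2 * r)) : H.A S) := by
  rw [coe_ps, coe_pl]
  exact h.push_pull_ne hi hj hij t.2

lemma ps_pl_eq [CharZero K] {N : ℕ} {p : ℕ → (V ⟶ S)} {a : C.A S} {b κ : ℚ}
    (h : Pw C n N p a b κ) {i : ℕ} (hi : i < N) (t : H.gr S (2 * r)) :
    ps H h.dimV h.dimS (p i) r (pl H (p i) r t) = (κ : K) • t := by
  apply Subtype.ext
  rw [coe_ps, coe_pl, h.push_pull hi, Submodule.coe_smul]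
  have h1 : (H.cl (X := S)).comp (algebraMap ℚ (C.A S)) =
      (algebraMap K (H.A S)).comp (algebraMap ℚ K) := RingHom.ext_rat _ _
  have h2 : sc H S κ = algebraMap K (H.A S) (κ : K) := by
    have := RingHom.congr_fun h1 κ
    simpa [sc] using this
  rw [h2, Algebra.smul_def]

/-- **The radicals vanish if they are contained in subrepresentations generated by a bounded
number of elements.** -/
theorem semisimple_of_within [CharZero K] (hR : IsGalois R)
    (hfin : ∀ X : 𝒱.Obj, Module.Finite K (H.gr X (2 * r)))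
    (hP : ∀ (S : 𝒱.Obj) (N : ℕ), S.dim = n → HasPower C n N S) {D : ℕ}
    (hD : RadicalWithin R n r D) : Semisimple R n r := by
  intro S hS
  have := hfin S
  rw [semisimple_iff, Submodule.eq_bot_iff]
  intro t ht
  by_contra hne
  set M := Module.finrank K (H.gr S (2 * r) →ₗ[K] H.gr S (2 * r)) with hM
  obtain ⟨V, p, a, b, κ, h⟩ := exists_pw hS (hP S (D * M + 1) hS)
  obtain ⟨x, hx⟩ := hD V h.dimV
  have h1 := card_le (ρ := R.rep V r) (τ := R.rep S r)
    (fun i : Fin (D * M + 1) => ps H h.dimV h.dimS (p i) r)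
    (fun i g s => ps_rep hR h.dimV h.dimS (p i) g s) ⊥ ⊥
    (fun i s hs => by rw [Submodule.mem_bot] at hs ⊢; rw [hs, map_zero]) x
    (fun i => pl H (p i) r t)
    (fun i => Submodule.mem_sup_right (hx (map_radical _ (fun g s => pl_rep hR (p i) g s) ht)))
    (t := t) (by rwa [Submodule.mem_bot]) (κ := (κ : K)) (by exact_mod_cast h.hκ)
    (fun i => ps_pl_eq h i.2 t) (fun i j hij => by
      rw [Submodule.mem_bot]
      refine eq_zero_of_invariant (ρ := R.rep S r)
        ((ps H h.dimV h.dimS (p i) r).comp (pl H (p j) r)) (fun g s => ?_) ht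
      rw [LinearMap.comp_apply, LinearMap.comp_apply, pl_rep hR, ps_rep hR]
      exact rep_alg hR g (ps_pl_ne hR h j.2 i.2 (fun e => hij (Fin.ext e.symm)) s))
  rw [← hM] at h1
  omega

theorem within_of_semisimple (hfin : ∀ X : 𝒱.Obj, Module.Finite K (H.gr X (2 * r)))
    (h : Semisimple R n r) : RadicalWithin R n r 0 := by
  intro X hX
  have := hfin X
  refine ⟨Fin.elim0, ?_⟩
  rw [semisimple_iff.1 (h X hX)]
  exact bot_le

/-- The algebraic classes. -/
def algSub (H : WeilTheoryData.{u, v, w} C K) (X : 𝒱.Obj) (r : ℕ) :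
    Submodule K (H.gr X (2 * r)) :=
  (Submodule.span K {y : H.A X | ∃ z : C.A X, C.Deg r z ∧ y = H.cl z}).comap
    (H.gr X (2 * r)).subtype

omit hC hH in
lemma mem_algSub {t : H.gr X (2 * r)} : t ∈ algSub H X r ↔ IsAlg H r (t : H.A X) := Iff.rfl

theorem algebraic_of_within [CharZero K] (hR : IsGalois R)
    (hfin : ∀ X : 𝒱.Obj, Module.Finite K (H.gr X (2 * r)))
    (hP : ∀ (S : 𝒱.Obj) (N : ℕ), S.dim = n → HasPower C n N S) {D : ℕ}
    (hD : InvariantsWithin R n r D) : InvariantsAlgebraic R n r := by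
  intro S t hS ht
  have := hfin S
  by_contra hne
  set M := Module.finrank K (H.gr S (2 * r) →ₗ[K] H.gr S (2 * r)) with hM
  obtain ⟨V, p, a, b, κ, h⟩ := exists_pw hS (hP S (D * M + 1) hS)
  obtain ⟨x, hx⟩ := hD V h.dimV
  have h1 := card_le (ρ := R.rep V r) (τ := R.rep S r)
    (fun i : Fin (D * M + 1) => ps H h.dimV h.dimS (p i) r)
    (fun i g s => ps_rep hR h.dimV h.dimS (p i) g s) (algSub H V r) (algSub H S r)
    (fun i s hs => by
      rw [mem_algSub] at hs ⊢
      rw [coe_ps]
      exact alg_push h.dimV h.dimS (p i) hs) x (fun i => pl H (p i) r t)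
    (fun i => by
      obtain ⟨y, hy, hy2⟩ := hx (pl H (p i) r t) (fun g => by rw [← pl_rep hR, ht g])
      have := Submodule.add_mem_sup (mem_algSub.2 hy2) hy
      rwa [sub_add_cancel] at this)
    (t := t) (by rwa [mem_algSub]) (κ := (κ : K)) (by exact_mod_cast h.hκ)
    (fun i => ps_pl_eq h i.2 t)
    (fun i j hij => ps_pl_ne hR h j.2 i.2 (fun e => hij (Fin.ext e.symm)) t)
  rw [← hM] at h1
  omega

omit hH in
theorem within_of_algebraic (h : InvariantsAlgebraic R n r) : InvariantsWithin R n r 0 := by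
  intro X hX
  refine ⟨Fin.elim0, fun t ht => ⟨0, Submodule.zero_mem _, ?_⟩⟩
  rw [sub_zero]
  exact h X t hX ht

end main

end Pool.Agent.V1157.SS.Aux
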