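import Pool.Agent.V1157.BD.Defs

/-!
# Galois representations on the cohomology of varieties: auxiliary definitions
-/

open CategoryTheory AlgebraicGeometry

universe u v w x

namespace Pool.Agent.V1157.SS.Aux

open Pool.Agent.H914 Pool.Agent.H914.VarClass Pool.Agent.H914.VarClass.Obj Pool.Agent.W492.BB
  Pool.Agent.V1157.BD

/-- The radical of the representation `ρ`: the intersection of the maximal proper
subrepresentations. -/
def radical {K : Type*} [Field K] {G : Type*} [Group G] {V : Type*} [AddCommGroup V] [Module K V]
    (ρ : Representation K G V) : Submodule K V :=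
  sInf {W | ∃ σ : Subrepresentation ρ, IsCoatom σ ∧ σ.toSubmodule = W}

variable {k : Type u} [Field k] {𝒱 : VarClass k} {C : TheoryData.{u, v, 0} 𝒱 ℚ} {K : Type w}
  [Field K]

/-- The group `G` (the absolute Galois group of `k`) acts on `H^{2r}(X)(r)`, for all `X` and
`r`. -/
structure GaloisData (G : Type x) [Group G] (H : WeilTheoryData.{u, v, w} C K) where
  /-- the representation on `H^{2r}(X)(r)` -/
  rep : ∀ (X : 𝒱.Obj) (r : ℕ), Representation K G (H.gr X (2 * r))

variable {G : Type x} [Group G] {H : WeilTheoryData.{u, v, w} C K} (R : GaloisData G H)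

/-- The classes in `H^{2r}(X)(r)`. -/
abbrev GaloisData.Cls (_ : GaloisData G H) (X : 𝒱.Obj) (r : ℕ) : Type v := H.gr X (2 * r)

/-- The class `g t` in the whole cohomology of `X`. -/
def GaloisData.conj {X : 𝒱.Obj} {r : ℕ} (g : G) (t : R.Cls X r) : H.A X := (R.rep X r g t).1

/-- Pull-backs are compatible with the action of `G`. -/
def PullCompatible : Prop :=
  ∀ (X Y : 𝒱.Obj) (f : X ⟶ Y) (r : ℕ) (g : G) (t : R.Cls Y r) (s : R.Cls X r),
    s.1 = H.up f t.1 → R.conj g s = H.up f (R.conj g t)

/-- Push-forwards are compatible with the action of `G`. -/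
def PushCompatible : Prop :=
  ∀ (X Y : 𝒱.Obj) (f : X ⟶ Y) (r s : ℕ) (g : G) (t : R.Cls X r) (u : R.Cls Y s),
    r + Y.dim = s + X.dim → u.1 = H.down f t.1 → R.conj g u = H.down f (R.conj g t)

/-- The classes of cycles are invariant under the action of `G`. -/
def CyclesInvariant : Prop :=
  ∀ (X : 𝒱.Obj) (r : ℕ) (g : G) (z : C.A X) (t : R.Cls X r), C.Deg r z → t.1 = H.cl z →
    R.conj g t = t.1

/-- Pull-backs and push-forwards are compatible with the action of `G`, and the classes of cycles
are invariant. -/
structure IsGalois : Prop where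
  pull : PullCompatible R
  push : PushCompatible R
  cl : CyclesInvariant R

/-- The representations `H^{2r}(X)(r)` of `G` are semisimple, for all varieties `X` of dimension
`n`: every subrepresentation has a complement. -/
def Semisimple (n r : ℕ) : Prop :=
  ∀ X : 𝒱.Obj, X.dim = n → (R.rep X r).IsSemisimpleRepresentation

/-- The subrepresentation of `H^{2r}(X)(r)` generated by the elements `x l`. -/
def generated {X : 𝒱.Obj} {r D : ℕ} (x : Fin D → H.gr X (2 * r)) :
    Submodule K (H.gr X (2 * r)) :=
  Submodule.span K {y | ∃ (g : G) (l : Fin D), y = R.rep X r g (x l)}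

/-- For all varieties `X` of dimension `n` the radical of the representation `H^{2r}(X)(r)` is
contained in a subrepresentation which is generated by `D` elements. -/
def RadicalWithin (n r D : ℕ) : Prop :=
  ∀ X : 𝒱.Obj, X.dim = n → ∃ x : Fin D → H.gr X (2 * r),
    radical (R.rep X r) ≤ generated R x

/-- For all varieties `X` of dimension `n` the `G`-invariant classes in `H^{2r}(X)(r)` are linear
combinations of classes of cycles. -/
def InvariantsAlgebraic (n r : ℕ) : Prop :=
  ∀ (X : 𝒱.Obj) (t : H.gr X (2 * r)), X.dim = n → (∀ g, R.rep X r g t = t) →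
    IsAlg H r (t : H.A X)

/-- For all varieties `X` of dimension `n` the `G`-invariant classes in `H^{2r}(X)(r)` are sums of
algebraic classes and of elements of a subrepresentation which is generated by `D` elements. -/
def InvariantsWithin (n r D : ℕ) : Prop :=
  ∀ X : 𝒱.Obj, X.dim = n → ∃ x : Fin D → H.gr X (2 * r), ∀ t : H.gr X (2 * r),
    (∀ g, R.rep X r g t = t) → ∃ y ∈ generated R x, IsAlg H r ((t - y : H.gr X (2 * r)) : H.A X)

end Pool.Agent.V1157.SS.Aux
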